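import Pool.Agent.Q38.IM.Decide
import Pool.Agent.Helper270.WPB

/-!
# A finitely presented inverse monoid with finite Schützenberger graphs and undecidable membership
-/

set_option autoImplicit false

namespace Pool.Agent.Results.MP_56939f_al.FiniteSchutzenberger

open Pool.Agent.Q38.IM

/-- There is a finitely presented inverse monoid all of whose Schützenberger graphs are finite (in
particular it is tree-like), in which rational subset membership, submonoid membership, inverse
submonoid membership and closed inverse submonoid membership are all undecidable. -/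
theorem result : ∃ (k : ℕ) (R : Set (Word (Fin k) × Word (Fin k))), R.Finite ∧
    IsInverseMonoid (InvMon R) ∧ (∀ x : InvMon R, (Comp x).Finite) ∧ TreeLike R ∧
    ¬ ComputablePred (RationalMem R) ∧
    ¬ ComputablePred (SubmonoidMem R) ∧
    ¬ ComputablePred (InvSubmonoidMem R) ∧
    ¬ ComputablePred (ClosedInvSubmonoidMem R) := by
  obtain ⟨m, R, W, hW, hu⟩ := Pool.Agent.Helper270.WP.word_problem
  let c : Fin (Fintype.card (Fin m ⊕ Fin m ⊕ Bool)) ≃ Fin m ⊕ Fin m ⊕ Bool :=
    (Fintype.equivFin _).symm
  have hX : Computable (fun n => (XX c R (W n), zw c)) :=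
    Computable.pair ((XX_primrec c R).to_comp.comp hW) (Computable.const _)
  have hS : Computable (fun n => (star (XX c R (W n)), zw c)) :=
    Computable.pair ((star_primrec.comp (XX_primrec c R)).to_comp.comp hW) (Computable.const _)
  refine ⟨_, rels c, rels_finite c, isInverseMonoid _, comp_finite c, treeLike c,
    fun h => hu ?_, fun h => hu ?_, fun h => hu ?_, fun h => hu ?_⟩
  · refine ComputablePred.computable_of_manyOneReducible ⟨_, hS, fun n => ?_⟩ h
    rw [rational_iff]
    exact (mem_iff c R (W n)).1.symm
  · exact ComputablePred.computable_of_manyOneReducible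
      ⟨_, hX, fun n => (mem_iff c R (W n)).1.symm⟩ h
  · exact ComputablePred.computable_of_manyOneReducible
      ⟨_, hX, fun n => (mem_iff c R (W n)).2.1.symm⟩ h
  · exact ComputablePred.computable_of_manyOneReducible
      ⟨_, hX, fun n => (mem_iff c R (W n)).2.2.symm⟩ h

end Pool.Agent.Results.MP_56939f_al.FiniteSchutzenberger
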